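import Pool.Agent.W802.BA.D7.Data

set_option autoImplicit false
set_option maxRecDepth 1000000

namespace Pool.Agent.W802.BA.D7

open Pool.Agent.W802.BA

theorem x2_ok : fchkT 5 (add2 X2L [[-1]])
    (.sx .leaf .leaf)
    0 1 1 0 1 2 = true := by decide +kernel

theorem m2p_ok : fchkT 11 (add2 m2p [[0, -50]])
    (.sx .leaf (.sx .leaf .leaf))
    0 1 1 0 1 2 = true := by decide +kernel

theorem m2m_ok : fchkT 11 (add2 m2m [[0, -50]])
    (.sx .leaf (.sx .leaf .leaf))
    0 1 1 0 1 2 = true := by decide +kernel

theorem xz_ok : fchkT 6 xzL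
    .leaf
    0 1 1 0 1 2 = true := by decide +kernel

theorem q_ok : fchkT 5 (add2 qL [[-1]])
    (.sx .leaf .leaf)
    0 1 1 0 1 2 = true := by decide +kernel

def t0L : List ℤ :=
  [10862, -20042, -138989, 618040, -559582]

theorem t0L_eq : isT [(DTl 0 RL).headD []] [t0L] = true := by decide +kernel

theorem t0_ok : fchkT 5 [t0L] .leaf 0 1 1 0 1 2 = true := by decide +kernel

def NL : List ℤ :=
  [103, -109, 6]

def ML : List ℤ :=
  [203, -109, 6]

def rsL : List ℤ :=
  [15961195434290000, 1088110700699680000, -6803318559546380000, 13504533344971110000,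
    -7520354160926950000, -4214140639915820000, 3777997013317360000, -434091202969010000,
    -16632747414480000, 5584647965400000, -358250411520000, 8684768160000, -24572160000,
    -1399680000]

theorem rsL_eq : isT [sm1 (-1) (subr NL ML RL).1] [rsL] = true := by decide +kernel

theorem rs_ok : fchkT 14 [rsL] .leaf 0 1 1 0 1 2 = true := by decide +kernel

theorem R1_ok : isE [at1 RL] [[-10000]] = true := by decide +kernel

theorem dR1_ok : isE [at1 (dX RL)] [[-20000]] = true := by decide +kernel

end Pool.Agent.W802.BA.D7
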